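import Pool.Agent.H43.QO.TargetsB
import Pool.Agent.H49.SDP.Mat

/-!
# ABSO2: the abstract inequality with clause constraints (MP_c62aed_lc, helper49)
-/

set_option autoImplicit false

namespace Pool.Agent.H49.QO

open Finset Matrix

/-- Cauchy-Schwarz over the blocks -/
theorem cs {B : Type} [Fintype B] (Mx P s : ℝ) (hMx : 0 ≤ Mx) (hP : 0 ≤ P) (hs : 0 ≤ s)
    (Y E Z : B → ℝ) (hY : ∀ b, 0 ≤ Y b) (hE : ∀ b, 0 ≤ E b)
    (h : ∀ b, -(Mx * (2 * Real.sqrt (Y b * E b) + E b)) ≤ Z b)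
    (hYY : ∑ b, Y b ≤ P) (hEE : ∑ b, E b ≤ s * P) :
    -(Mx * (P * (2 * Real.sqrt s + s))) ≤ ∑ b, Z b := by
  have h1 := Finset.sum_le_sum fun b (_ : b ∈ (univ : Finset B)) => h b
  refine le_trans ?_ h1
  rw [Finset.sum_neg_distrib, neg_le_neg_iff, ← Finset.mul_sum]
  refine mul_le_mul_of_nonneg_left ?_ hMx
  rw [Finset.sum_add_distrib, ← Finset.mul_sum]
  have h2 : ∑ b, Real.sqrt (Y b * E b) ≤ P * Real.sqrt s := by
    calc ∑ b, Real.sqrt (Y b * E b) = ∑ b, Real.sqrt (Y b) * Real.sqrt (E b) :=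
          Finset.sum_congr rfl fun b _ => Real.sqrt_mul (hY b) _
      _ ≤ Real.sqrt (∑ b, Y b) * Real.sqrt (∑ b, E b) :=
          Real.sum_sqrt_mul_sqrt_le _ hY hE
      _ ≤ Real.sqrt P * Real.sqrt (s * P) :=
          mul_le_mul (Real.sqrt_le_sqrt hYY) (Real.sqrt_le_sqrt hEE) (Real.sqrt_nonneg _)
            (Real.sqrt_nonneg _)
      _ = P * Real.sqrt s := by
          rw [Real.sqrt_mul hs, mul_comm (Real.sqrt s), ← mul_assoc, Real.mul_self_sqrt hP]
  linarith

theorem swap {Y B : Type} [Fintype B] (A : Finset Y) (R : Y → B → Prop)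
    [∀ a b, Decidable (R a b)] (φ : B → Y → ℝ) :
    ∑ b, ∑ a ∈ A.filter (fun a => R a b), φ b a =
      ∑ a ∈ A, ∑ b, if R a b then φ b a else 0 := by
  simp only [Finset.sum_filter]
  exact Finset.sum_comm

/-- the sum over the blocks of one kind -/
theorem kind {X Y : Type} [Fintype X] (K : Y → X → ℝ) (kb Mx θ W S : ℝ)
    (hkb : 0 ≤ kb) (hMx : 0 ≤ Mx) (hθ : 0 ≤ θ) (hS : 0 ≤ S) (A : Finset Y) {B : Type}
    [Fintype B] (q : B → ℝ) (hq : ∀ b, 0 ≤ q b) (R : Y → B → Prop) [∀ a b, Decidable (R a b)]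
    (p : B → Y → X → ℝ) (hp0 : ∀ b a x, a ∈ A → R a b → 0 ≤ p b a x)
    (hb : ∀ b, (∀ a ∈ A.filter (fun a => R a b), ∀ x, p b a x ≤ 1) →
      -(Mx * (2 * Real.sqrt ((∑ a ∈ A.filter (fun a => R a b), ∑ x, p b a x) *
        (kb * q b * ((A.filter (fun a => R a b)).card + θ) * Fintype.card X)) +
        kb * q b * ((A.filter (fun a => R a b)).card + θ) * Fintype.card X)) ≤
        ∑ a ∈ A.filter (fun a => R a b), ∑ x, K a x * p b a x)
    (hp1 : ∀ a ∈ A, ∀ x, ∑ b, (if R a b then p b a x else 0) ≤ 1)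
    (hq1 : ∀ a ∈ A, ∑ b, (if R a b then q b else 0) ≤ S)
    (hq2 : ∑ b, q b ≤ W) (hW : θ * W ≤ A.card) :
    -(Mx * ((A.card * Fintype.card X) * (2 * Real.sqrt (kb * (S + 1)) + kb * (S + 1)))) ≤
      ∑ a ∈ A, ∑ x, K a x * ∑ b, (if R a b then p b a x else 0) := by
  have hterm : ∀ a ∈ A, ∀ x b, 0 ≤ (if R a b then p b a x else 0) := by
    intro a ha x b
    split_ifs with h
    · exact hp0 b a x ha h
    · exact le_refl _
  have hle1 : ∀ b, ∀ a ∈ A.filter (fun a => R a b), ∀ x, p b a x ≤ 1 := by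
    intro b a ha x
    obtain ⟨ha1, ha2⟩ := Finset.mem_filter.1 ha
    have h1 := Finset.single_le_sum (f := fun b => if R a b then p b a x else 0)
      (fun b _ => hterm a ha1 x b) (Finset.mem_univ b)
    simp only [ha2, if_true] at h1
    exact h1.trans (hp1 a ha1 x)
  have hE0 : ∀ b, 0 ≤ kb * q b * ((A.filter (fun a => R a b)).card + θ) * Fintype.card X :=
    fun b => mul_nonneg (mul_nonneg (mul_nonneg hkb (hq b)) (by positivity)) (by positivity)
  have h := cs Mx (A.card * Fintype.card X) (kb * (S + 1)) hMx (by positivity) (by positivity)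
    (fun b => ∑ a ∈ A.filter (fun a => R a b), ∑ x, p b a x)
    (fun b => kb * q b * ((A.filter (fun a => R a b)).card + θ) * Fintype.card X)
    (fun b => ∑ a ∈ A.filter (fun a => R a b), ∑ x, K a x * p b a x)
    (fun b => Finset.sum_nonneg fun a ha => Finset.sum_nonneg fun x _ =>
      hp0 b a x (Finset.mem_filter.1 ha).1 (Finset.mem_filter.1 ha).2)
    hE0 (fun b => hb b (hle1 b)) ?_ ?_
  · refine h.trans (le_of_eq ?_)
    rw [swap]
    refine Finset.sum_congr rfl fun a _ => ?_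
    rw [Finset.sum_congr rfl fun b (_ : b ∈ univ) => (show
      (if R a b then ∑ x, K a x * p b a x else 0) =
        ∑ x, K a x * (if R a b then p b a x else 0) by
      split_ifs
      · rfl
      · simp), Finset.sum_comm]
    refine Finset.sum_congr rfl fun x _ => ?_
    rw [Finset.mul_sum]
  · rw [swap]
    calc ∑ a ∈ A, ∑ b, (if R a b then ∑ x, p b a x else 0) =
          ∑ a ∈ A, ∑ x, ∑ b, (if R a b then p b a x else 0) := by
          refine Finset.sum_congr rfl fun a _ => ?_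
          rw [Finset.sum_comm]
          refine Finset.sum_congr rfl fun b _ => ?_
          split_ifs
          · rfl
          · simp
      _ ≤ ∑ a ∈ A, ∑ x : X, (1 : ℝ) :=
          Finset.sum_le_sum fun a ha => Finset.sum_le_sum fun x _ => hp1 a ha x
      _ = A.card * Fintype.card X := by
          rw [Finset.sum_const, Finset.sum_const, Finset.card_univ, nsmul_eq_mul, nsmul_eq_mul,
            mul_one]
  · have h1 : ∑ b, q b * ((A.filter (fun a => R a b)).card : ℝ) ≤ A.card * S := by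
      calc ∑ b, q b * ((A.filter (fun a => R a b)).card : ℝ) =
            ∑ b, ∑ a ∈ A.filter (fun a => R a b), q b := by
            refine Finset.sum_congr rfl fun b _ => ?_
            rw [Finset.sum_const, nsmul_eq_mul, mul_comm]
        _ = ∑ a ∈ A, ∑ b, (if R a b then q b else 0) := swap A R fun b _ => q b
        _ ≤ ∑ a ∈ A, S := Finset.sum_le_sum hq1
        _ = A.card * S := by rw [Finset.sum_const, nsmul_eq_mul]
    have h2 : ∑ b, kb * q b * ((A.filter (fun a => R a b)).card + θ) * Fintype.card X =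
        kb * Fintype.card X * (∑ b, q b * ((A.filter (fun a => R a b)).card : ℝ) +
          θ * ∑ b, q b) := by
      rw [Finset.mul_sum, ← Finset.sum_add_distrib, Finset.mul_sum]
      refine Finset.sum_congr rfl fun b _ => ?_
      ring
    rw [h2]
    have h3 : θ * ∑ b, q b ≤ A.card := (mul_le_mul_of_nonneg_left hq2 hθ).trans hW
    calc kb * Fintype.card X * (∑ b, q b * ((A.filter (fun a => R a b)).card : ℝ) +
          θ * ∑ b, q b) ≤ kb * Fintype.card X * (A.card * S + A.card) :=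
          mul_le_mul_of_nonneg_left (add_le_add h1 h3) (by positivity)
      _ = kb * (S + 1) * (A.card * Fintype.card X) := by ring

theorem tr1 (a b : ℝ) : (Matrix.diagonal (fun _ : Fin 1 => a) *
    Matrix.diagonal (fun _ : Fin 1 => b)).trace = a * b := by
  rw [Matrix.diagonal_mul_diagonal, Matrix.trace_diagonal]
  simp

theorem psd1 (a : ℝ) (ha : 0 ≤ a) : (Matrix.diagonal (fun _ : Fin 1 => a)).PosSemidef :=
  Matrix.PosSemidef.diagonal fun _ => ha

theorem psd_trace_nonneg {q : ℕ} {A B : Matrix (Fin q) (Fin q) ℝ} (hA : A.PosSemidef)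
    (hB : B.PosSemidef) : 0 ≤ (A * B).trace := Pool.Agent.H49.SDP.trace_mul_nonneg hA hB

theorem pf_ABSO2 : Pool.Agent.H43.QO.S_ABSO2 := by
  classical
  intro X Y C _ _ _ _ K kb Mx θ W th F sat hkb hMx hθ hth hKM hK1 hk1 hk2 M A J cell nb nc o cl
    I T G L lam0 mu ls de S hde hthde hcov hdis hG hL hLI hlam hmu hmuT hmu1 hclF hls hlsat
    hcert hS hW hθW hA0
  obtain ⟨a0, ha0⟩ := Finset.card_pos.1 (by exact_mod_cast hA0 : 0 < A.card)
  obtain ⟨x0⟩ := ‹Nonempty X›
  obtain ⟨j0, hj0, -⟩ := hcov a0 ha0 x0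
  have hMx0 : 0 ≤ Mx := by linarith
  have hS0 : 0 ≤ S := le_trans (Finset.sum_nonneg fun j _ => by positivity) (hS a0 ha0)
  have hcov' : ∀ a x, ∃ j, a ∈ A → j ∈ J a ∧ x ∈ cell j := by
    intro a x
    by_cases ha : a ∈ A
    · obtain ⟨j, h1, h2⟩ := hcov a ha x
      exact ⟨j, fun _ => ⟨h1, h2⟩⟩
    · exact ⟨j0, fun h => absurd h ha⟩
  choose jj hjj using hcov'
  have huni : ∀ a ∈ A, ∀ x j, j ∈ J a → x ∈ cell j → j = jj a x := by
    intro a ha x j h1 h2
    by_contra h3
    exact Set.disjoint_left.1 (hdis a ha j h1 (jj a x) (hjj a x ha).1 h3) h2 (hjj a x ha).2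
  have hsingle : ∀ a ∈ A, ∀ x, ∀ φ : Fin M → ℝ, (∀ j, ¬ (j ∈ J a ∧ x ∈ cell j) → φ j = 0) →
      ∑ j, φ j = φ (jj a x) := by
    intro a ha x φ hφ
    refine Finset.sum_eq_single _ (fun j _ hj => hφ j fun h => hj (huni a ha x j h.1 h.2)) ?_
    intro h
    exact absurd (Finset.mem_univ _) h
  -- bounds for W
  have hWterm : ∀ j, ∑ i, (o j i : ℝ) + nc j + 1 ≤ W := fun j =>
    (Finset.single_le_sum (f := fun j => ∑ i, (o j i : ℝ) + nc j + 1)
      (fun j _ => by positivity) (Finset.mem_univ j)).trans hW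
  have hW1 : ((1 : ℕ) : ℝ) ≤ W := by
    refine le_trans ?_ (hWterm j0)
    have : (0 : ℝ) ≤ ∑ i, (o j0 i : ℝ) + nc j0 := by positivity
    push_cast
    linarith
  have hWo : ∀ j i, ((o j i : ℕ) : ℝ) ≤ W := by
    intro j i
    refine le_trans ?_ (hWterm j)
    have h1 := Finset.single_le_sum (f := fun i => (o j i : ℝ)) (fun i _ => by positivity)
      (Finset.mem_univ i)
    have h2 : (0 : ℝ) ≤ nc j := by positivity
    linarith
  -- the indicator functions
  obtain ⟨χ, hχ⟩ : ∃ χ : Fin M → X → ℝ, ∀ j x, χ j x = if x ∈ cell j then 1 else 0 :=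
    ⟨_, fun _ _ => rfl⟩
  obtain ⟨v, hv⟩ : ∃ v : (j : Fin M) → Fin (nc j) → X → ℝ,
      ∀ j t x, v j t x = if sat (cl j t) x then 0 else 1 := ⟨_, fun _ _ _ => rfl⟩
  have hv0 : ∀ j t x, 0 ≤ v j t x := by
    intro j t x
    rw [hv]
    split_ifs <;> norm_num
  have hv1 : ∀ j t x, v j t x ≤ 1 := by
    intro j t x
    rw [hv]
    split_ifs <;> norm_num
  have hvl : ∀ j t, ∀ x ∈ cell j, 0 ≤ v j t x - ls j t x := by
    intro j t x hx
    rw [hv]
    split_ifs with h
    · have := hlsat j t x hx h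
      linarith
    · have := (abs_le.1 (hls j t x hx)).2
      linarith
  -- the scalar form of the first hypothesis
  have hk0 : ∀ (f : Y → ℝ) (g : X → ℝ), (∀ a, 0 ≤ f a) → (∀ x, 0 ≤ g x) → ∀ A' : Finset Y,
      (∀ a ∈ A', ∀ x, f a * g x ≤ 1) →
      -(Mx * (2 * Real.sqrt ((∑ a ∈ A', ∑ x, f a * g x) *
        (kb * 1 * (A'.card + θ) * Fintype.card X)) +
        kb * 1 * (A'.card + θ) * Fintype.card X)) ≤ ∑ a ∈ A', ∑ x, K a x * (f a * g x) := by
    intro f g hf hg A' h
    have h1 := hk1 1 (fun a => Matrix.diagonal fun _ => f a)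
      (fun x => Matrix.diagonal fun _ => g x) hW1 (fun a => psd1 _ (hf a))
      (fun x => psd1 _ (hg x)) A' Finset.univ 1 one_pos
      (fun a ha x _ => by rw [tr1]; exact h a ha x)
    simp only [tr1, Nat.cast_one, mul_one] at h1
    simp only [mul_one]
    exact h1
  -- the four sums over blocks
  obtain ⟨P1, hP1⟩ : ∃ P1 : Y → X → ℝ, ∀ a x, P1 a x =
      ∑ j, (if j ∈ J a then lam0 a j * χ j x else 0) := ⟨_, fun _ _ => rfl⟩
  obtain ⟨P2, hP2⟩ : ∃ P2 : Y → X → ℝ, ∀ a x, P2 a x =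
      ∑ b : (Σ j, Fin (nb j)), (if b.1 ∈ J a ∧ b.2 ∈ I a b.1 then
        (L a b.1 b.2 * (if x ∈ cell b.1 then G b.1 x b.2 else 0)).trace else 0) :=
    ⟨_, fun _ _ => rfl⟩
  obtain ⟨P3, hP3⟩ : ∃ P3 : Y → X → ℝ, ∀ a x, P3 a x =
      ∑ b : (Σ j, Fin (nc j)), (if b.1 ∈ J a ∧ b.2 ∈ T a b.1 then
        mu a b.1 b.2 * (if x ∈ cell b.1 then v b.1 b.2 x - ls b.1 b.2 x else 0) else 0) :=
    ⟨_, fun _ _ => rfl⟩
  obtain ⟨P4, hP4⟩ : ∃ P4 : Y → X → ℝ, ∀ a x, P4 a x =
      ∑ b : (Σ j, Fin (nc j)), (if b.1 ∈ J a ∧ b.2 ∈ T a b.1 then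
        mu a b.1 b.2 * (if x ∈ cell b.1 then v b.1 b.2 x else 0) else 0) :=
    ⟨_, fun _ _ => rfl⟩
  have e1 : ∀ a ∈ A, ∀ x, P1 a x = lam0 a (jj a x) := by
    intro a ha x
    rw [hP1, hsingle a ha x _ (fun j hj => ?_)]
    · rw [if_pos (hjj a x ha).1, hχ, if_pos (hjj a x ha).2, mul_one]
    · by_cases h1 : j ∈ J a
      · rw [if_pos h1, hχ, if_neg (fun h => hj ⟨h1, h⟩), mul_zero]
      · rw [if_neg h1]
  have e2 : ∀ a ∈ A, ∀ x, P2 a x = ∑ i, (L a (jj a x) i * G (jj a x) x i).trace := by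
    intro a ha x
    rw [hP2, Fintype.sum_sigma, hsingle a ha x _ (fun j hj => ?_)]
    · refine Finset.sum_congr rfl fun i _ => ?_
      simp only [(hjj a x ha).1, (hjj a x ha).2, true_and, if_true]
      by_cases h : i ∈ I a (jj a x)
      · rw [if_pos h]
      · rw [if_neg h, hLI _ _ _ h, Matrix.zero_mul, Matrix.trace_zero]
    · refine Finset.sum_eq_zero fun i _ => ?_
      by_cases h1 : j ∈ J a
      · have h2 : x ∉ cell j := fun h => hj ⟨h1, h⟩
        simp only [h2, if_false, Matrix.mul_zero, Matrix.trace_zero, ite_self]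
      · simp only [h1, false_and, if_false]
  have e3' : ∀ (w : (j : Fin M) → Fin (nc j) → X → ℝ), ∀ a ∈ A, ∀ x,
      ∑ b : (Σ j, Fin (nc j)), (if b.1 ∈ J a ∧ b.2 ∈ T a b.1 then
        mu a b.1 b.2 * (if x ∈ cell b.1 then w b.1 b.2 x else 0) else 0) =
      ∑ t, mu a (jj a x) t * w (jj a x) t x := by
    intro w a ha x
    rw [Fintype.sum_sigma, hsingle a ha x _ (fun j hj => ?_)]
    · refine Finset.sum_congr rfl fun i _ => ?_
      simp only [(hjj a x ha).1, (hjj a x ha).2, true_and, if_true]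
      by_cases h : i ∈ T a (jj a x)
      · rw [if_pos h]
      · rw [if_neg h, hmuT _ _ _ h, zero_mul]
    · refine Finset.sum_eq_zero fun i _ => ?_
      by_cases h1 : j ∈ J a
      · have h2 : x ∉ cell j := fun h => hj ⟨h1, h⟩
        simp only [h2, if_false, mul_zero, ite_self]
      · simp only [h1, false_and, if_false]
  have e3 : ∀ a ∈ A, ∀ x, P3 a x =
      ∑ t, mu a (jj a x) t * (v (jj a x) t x - ls (jj a x) t x) := by
    intro a ha x
    rw [hP3]
    exact e3' (fun j t x => v j t x - ls j t x) a ha x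
  have e4 : ∀ a ∈ A, ∀ x, P4 a x = ∑ t, mu a (jj a x) t * v (jj a x) t x := by
    intro a ha x
    rw [hP4]
    exact e3' v a ha x
  have n1 : ∀ a ∈ A, ∀ x, 0 ≤ P1 a x := fun a ha x => by
    rw [e1 a ha x]
    exact hlam _ _
  have n2 : ∀ a ∈ A, ∀ x, 0 ≤ P2 a x := fun a ha x => by
    rw [e2 a ha x]
    exact Finset.sum_nonneg fun i _ =>
      psd_trace_nonneg (hL _ _ _) (hG _ x (hjj a x ha).2 i)
  have n3 : ∀ a ∈ A, ∀ x, 0 ≤ P3 a x := fun a ha x => by
    rw [e3 a ha x]
    exact Finset.sum_nonneg fun t _ => mul_nonneg (hmu _ _ _) (hvl _ t x (hjj a x ha).2)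
  have n4 : ∀ a ∈ A, ∀ x, 0 ≤ P4 a x := fun a ha x => by
    rw [e4 a ha x]
    exact Finset.sum_nonneg fun t _ => mul_nonneg (hmu _ _ _) (hv0 _ t x)
  have l4 : ∀ a ∈ A, ∀ x, P4 a x ≤ 1 := fun a ha x => by
    rw [e4 a ha x]
    refine (Finset.sum_le_sum fun t _ => ?_).trans (hmu1 a ha _ (hjj a x ha).1)
    exact mul_le_of_le_one_right (hmu _ _ _) (hv1 _ t x)
  -- the identity
  have hid : ∀ a ∈ A, ∀ x, |P4 a x - de - (P1 a x + P2 a x + P3 a x)| ≤ de / (4 * Mx) := by
    intro a ha x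
    have h1 := hcert a ha (jj a x) (hjj a x ha).1 x (hjj a x ha).2
    have h2 : P4 a x - de - (P1 a x + P2 a x + P3 a x) =
        ∑ t, mu a (jj a x) t * ls (jj a x) t x - de -
          (lam0 a (jj a x) + ∑ i, (L a (jj a x) i * G (jj a x) x i).trace) := by
      rw [e1 a ha x, e2 a ha x, e3 a ha x, e4 a ha x]
      simp only [mul_sub, Finset.sum_sub_distrib]
      ring
    rw [h2]
    exact h1
  have hde4 : de / (4 * Mx) ≤ de / 4 := by
    rw [div_le_div_iff₀ (by linarith) (by norm_num)]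
    nlinarith
  have htot : ∀ a ∈ A, ∀ x, P1 a x + P2 a x + P3 a x ≤ 1 - 3 / 4 * de := by
    intro a ha x
    have h1 := (abs_le.1 (hid a ha x)).1
    have h2 := l4 a ha x
    linarith
  have hde2 : de ≤ 4 / 3 := by
    have h1 := htot a0 ha0 x0
    have h2 := n1 a0 ha0 x0
    have h3 := n2 a0 ha0 x0
    have h4 := n3 a0 ha0 x0
    linarith
  obtain ⟨s, hs⟩ : ∃ s : ℝ, s = kb * (S + 1) := ⟨_, rfl⟩
  have hs0 : 0 ≤ s := by rw [hs]; positivity
  obtain ⟨P, hP⟩ : ∃ P : ℝ, P = A.card * Fintype.card X := ⟨_, rfl⟩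
  have hX0 : 0 < (Fintype.card X : ℝ) := by exact_mod_cast Fintype.card_pos_iff.2 ⟨x0⟩
  have hPpos : 0 < P := by rw [hP]; positivity
  -- the chosen orders
  have hJS : ∀ a ∈ A, ∑ j ∈ J a, (1 : ℝ) ≤ S := fun a ha =>
    (Finset.sum_le_sum fun j _ => by
      have : (0 : ℝ) ≤ ∑ i ∈ I a j, (o j i : ℝ) + (T a j).card := by positivity
      linarith).trans (hS a ha)
  have hIS : ∀ a ∈ A, ∑ j ∈ J a, ∑ i ∈ I a j, (o j i : ℝ) ≤ S := fun a ha =>
    (Finset.sum_le_sum fun j _ => by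
      have : (0 : ℝ) ≤ (T a j).card := by positivity
      linarith).trans (hS a ha)
  have hTS : ∀ a ∈ A, ∑ j ∈ J a, ((T a j).card : ℝ) ≤ S := fun a ha =>
    (Finset.sum_le_sum fun j _ => by
      have : (0 : ℝ) ≤ ∑ i ∈ I a j, (o j i : ℝ) := by positivity
      linarith).trans (hS a ha)
  have hTS' : ∀ a ∈ A, ∑ b : (Σ j, Fin (nc j)),
      (if b.1 ∈ J a ∧ b.2 ∈ T a b.1 then (1 : ℝ) else 0) ≤ S := by
    intro a ha
    refine le_trans (le_of_eq ?_) (hTS a ha)
    rw [Fintype.sum_sigma, ← Finset.sum_filter_add_sum_filter_not univ (fun j => j ∈ J a),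
      Finset.filter_univ_mem]
    have h1 : ∀ j ∈ J a, ∑ t : Fin (nc j), (if j ∈ J a ∧ t ∈ T a j then (1 : ℝ) else 0) =
        (T a j).card := by
      intro j hj
      simp [hj]
    have h2 : ∀ j ∈ univ.filter (fun j => ¬ j ∈ J a),
        ∑ t : Fin (nc j), (if j ∈ J a ∧ t ∈ T a j then (1 : ℝ) else 0) = 0 := by
      intro j hj
      simp [(Finset.mem_filter.1 hj).2]
    rw [Finset.sum_congr rfl h1, Finset.sum_congr rfl h2, Finset.sum_const_zero, add_zero]
  have hW3 : ∑ _b : (Σ j, Fin (nc j)), (1 : ℝ) ≤ W := by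
    refine le_trans ?_ hW
    rw [Fintype.sum_sigma]
    refine Finset.sum_le_sum fun j _ => ?_
    have : (0 : ℝ) ≤ ∑ i, (o j i : ℝ) := by positivity
    simp
    linarith
  have k1 : -(Mx * (P * (2 * Real.sqrt s + s))) ≤ ∑ a ∈ A, ∑ x, K a x * P1 a x := by
    have h := kind K kb Mx θ W S hkb hMx0 hθ.le hS0 A (B := Fin M) (fun _ => 1)
      (fun _ => zero_le_one) (fun a j => j ∈ J a) (fun j a x => lam0 a j * χ j x)
      (fun j a x _ _ => mul_nonneg (hlam _ _) (by rw [hχ]; split_ifs <;> norm_num))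
      (fun j hj => hk0 (fun a => lam0 a j) (χ j) (fun a => hlam _ _)
        (fun x => by rw [hχ]; split_ifs <;> norm_num) _ hj)
      (fun a ha x => by
        rw [← hP1]
        have h1 := htot a ha x
        have h2 := n2 a ha x
        have h3 := n3 a ha x
        linarith)
      (fun a ha => by
        have h1 := hJS a ha
        rw [← Finset.sum_filter, Finset.filter_univ_mem]
        exact h1)
      (by
        refine le_trans (Finset.sum_le_sum fun j _ => ?_) hW
        have : (0 : ℝ) ≤ ∑ i, (o j i : ℝ) + nc j := by positivity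
        linarith) hθW
    rw [← hs, ← hP] at h
    refine h.trans (le_of_eq ?_)
    refine Finset.sum_congr rfl fun a _ => Finset.sum_congr rfl fun x _ => ?_
    rw [hP1]
  have k2 : -(Mx * (P * (2 * Real.sqrt s + s))) ≤ ∑ a ∈ A, ∑ x, K a x * P2 a x := by
    have h := kind K kb Mx θ W S hkb hMx0 hθ.le hS0 A (B := Σ j, Fin (nb j))
      (fun b => (o b.1 b.2 : ℝ)) (fun _ => by positivity)
      (fun a b => b.1 ∈ J a ∧ b.2 ∈ I a b.1)
      (fun b a x => (L a b.1 b.2 * (if x ∈ cell b.1 then G b.1 x b.2 else 0)).trace)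
      (fun b a x _ _ => psd_trace_nonneg (hL _ _ _) (by
        split_ifs with h
        · exact hG _ x h _
        · exact PosSemidef.zero))
      (fun b hb => by
        have h1 := hk1 (o b.1 b.2) (fun a => L a b.1 b.2)
          (fun x => if x ∈ cell b.1 then G b.1 x b.2 else 0) (hWo _ _) (fun a => hL _ _ _)
          (fun x => by
            split_ifs with h
            · exact hG _ x h _
            · exact PosSemidef.zero)
          (A.filter (fun a => b.1 ∈ J a ∧ b.2 ∈ I a b.1)) Finset.univ 1 one_pos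
          (fun a ha x _ => hb a ha x)
        rw [mul_one] at h1
        exact h1)
      (fun a ha x => by
        rw [← hP2]
        have h1 := htot a ha x
        have h2 := n1 a ha x
        have h3 := n3 a ha x
        linarith)
      (fun a ha => by
        refine le_trans (le_of_eq ?_) (hIS a ha)
        rw [Fintype.sum_sigma, ← Finset.sum_filter_add_sum_filter_not univ (fun j => j ∈ J a),
          Finset.filter_univ_mem]
        have h1 : ∀ j ∈ J a, ∑ i : Fin (nb j),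
            (if j ∈ J a ∧ i ∈ I a j then (o j i : ℝ) else 0) = ∑ i ∈ I a j, (o j i : ℝ) := by
          intro j hj
          simp [hj]
        have h2 : ∀ j ∈ univ.filter (fun j => ¬ j ∈ J a),
            ∑ i : Fin (nb j), (if j ∈ J a ∧ i ∈ I a j then (o j i : ℝ) else 0) = 0 := by
          intro j hj
          simp [(Finset.mem_filter.1 hj).2]
        rw [Finset.sum_congr rfl h1, Finset.sum_congr rfl h2, Finset.sum_const_zero, add_zero])
      (by
        refine le_trans ?_ hW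
        rw [Fintype.sum_sigma]
        refine Finset.sum_le_sum fun j _ => ?_
        have : (0 : ℝ) ≤ nc j := by positivity
        simp only
        linarith) hθW
    rw [← hs, ← hP] at h
    refine h.trans (le_of_eq ?_)
    refine Finset.sum_congr rfl fun a _ => Finset.sum_congr rfl fun x _ => ?_
    rw [hP2]
  have k3 : -(Mx * (P * (2 * Real.sqrt s + s))) ≤ ∑ a ∈ A, ∑ x, K a x * P3 a x := by
    have hg : ∀ (b : Σ j, Fin (nc j)) x,
        0 ≤ (if x ∈ cell b.1 then v b.1 b.2 x - ls b.1 b.2 x else 0) := by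
      intro b x
      split_ifs with h
      · exact hvl _ _ x h
      · exact le_refl _
    have h := kind K kb Mx θ W S hkb hMx0 hθ.le hS0 A (B := Σ j, Fin (nc j)) (fun _ => 1)
      (fun _ => zero_le_one) (fun a b => b.1 ∈ J a ∧ b.2 ∈ T a b.1)
      (fun b a x => mu a b.1 b.2 * (if x ∈ cell b.1 then v b.1 b.2 x - ls b.1 b.2 x else 0))
      (fun b a x _ _ => mul_nonneg (hmu _ _ _) (hg b x))
      (fun b hb => hk0 (fun a => mu a b.1 b.2)
        (fun x => if x ∈ cell b.1 then v b.1 b.2 x - ls b.1 b.2 x else 0) (fun a => hmu _ _ _)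
        (hg b) _ hb)
      (fun a ha x => by
        rw [← hP3]
        have h1 := htot a ha x
        have h2 := n1 a ha x
        have h3 := n2 a ha x
        linarith)
      hTS' hW3 hθW
    rw [← hs, ← hP] at h
    refine h.trans (le_of_eq ?_)
    refine Finset.sum_congr rfl fun a _ => Finset.sum_congr rfl fun x _ => ?_
    rw [hP3]
  have k4 : -(2 * Mx * (P * (2 * Real.sqrt s + s))) ≤
      ∑ a ∈ A, ∑ x, (th - K a x) * P4 a x := by
    have hg : ∀ (b : Σ j, Fin (nc j)) x, 0 ≤ (if x ∈ cell b.1 then v b.1 b.2 x else 0) := by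
      intro b x
      split_ifs with h
      · exact hv0 _ _ x
      · exact le_refl _
    have h := kind (fun a x => th - K a x) kb (2 * Mx) θ W S hkb (by linarith) hθ.le hS0 A
      (B := Σ j, Fin (nc j)) (fun _ => 1)
      (fun _ => zero_le_one) (fun a b => b.1 ∈ J a ∧ b.2 ∈ T a b.1)
      (fun b a x => mu a b.1 b.2 * (if x ∈ cell b.1 then v b.1 b.2 x else 0))
      (fun b a x _ _ => mul_nonneg (hmu _ _ _) (hg b x))
      (fun b hb => by
        obtain ⟨f, hf⟩ : ∃ f : Y → ℝ, ∀ a, f a =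
            if a ∈ A.filter (fun a => b.1 ∈ J a ∧ b.2 ∈ T a b.1) then mu a b.1 b.2 else 0 :=
          ⟨_, fun _ => rfl⟩
        have hf' : ∀ a ∈ A.filter (fun a => b.1 ∈ J a ∧ b.2 ∈ T a b.1),
            f a = mu a b.1 b.2 := fun a ha => by rw [hf, if_pos ha]
        have h1 := hk2 (cl b.1 b.2) f (fun x => if x ∈ cell b.1 then v b.1 b.2 x else 0)
          (fun a => by
            rw [hf]
            split_ifs
            · exact hmu _ _ _
            · exact le_refl _)
          (hg b)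
          (fun a ha => by
            by_cases h : a ∈ A.filter (fun a => b.1 ∈ J a ∧ b.2 ∈ T a b.1)
            · obtain ⟨h1, h2, h3⟩ := Finset.mem_filter.1 h
              exact hclF a h1 b.1 h2 b.2 h3
            · exact absurd (by rw [hf, if_neg h]) ha)
          (fun x hx hsat => by
            apply hx
            rw [hv]
            simp only [hsat, if_true, ite_self])
          (A.filter (fun a => b.1 ∈ J a ∧ b.2 ∈ T a b.1)) Finset.univ 1 one_pos
          (fun a ha x _ => by rw [hf' a ha]; exact hb a ha x)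
        have s1 : ∑ a ∈ A.filter (fun a => b.1 ∈ J a ∧ b.2 ∈ T a b.1), ∑ x,
            f a * (if x ∈ cell b.1 then v b.1 b.2 x else 0) =
            ∑ a ∈ A.filter (fun a => b.1 ∈ J a ∧ b.2 ∈ T a b.1), ∑ x,
            mu a b.1 b.2 * (if x ∈ cell b.1 then v b.1 b.2 x else 0) :=
          Finset.sum_congr rfl fun a ha => by rw [hf' a ha]
        have s2 : ∑ a ∈ A.filter (fun a => b.1 ∈ J a ∧ b.2 ∈ T a b.1), ∑ x,
            K a x * (f a * (if x ∈ cell b.1 then v b.1 b.2 x else 0)) =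
            ∑ a ∈ A.filter (fun a => b.1 ∈ J a ∧ b.2 ∈ T a b.1), ∑ x,
            K a x * (mu a b.1 b.2 * (if x ∈ cell b.1 then v b.1 b.2 x else 0)) :=
          Finset.sum_congr rfl fun a ha => by rw [hf' a ha]
        rw [s1, s2] at h1
        have s3 : ∑ a ∈ A.filter (fun a => b.1 ∈ J a ∧ b.2 ∈ T a b.1), ∑ x,
            (th - K a x) * (mu a b.1 b.2 * (if x ∈ cell b.1 then v b.1 b.2 x else 0)) =
            th * ∑ a ∈ A.filter (fun a => b.1 ∈ J a ∧ b.2 ∈ T a b.1), ∑ x,
              mu a b.1 b.2 * (if x ∈ cell b.1 then v b.1 b.2 x else 0) -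
            ∑ a ∈ A.filter (fun a => b.1 ∈ J a ∧ b.2 ∈ T a b.1), ∑ x,
            K a x * (mu a b.1 b.2 * (if x ∈ cell b.1 then v b.1 b.2 x else 0)) := by
          rw [Finset.mul_sum, ← Finset.sum_sub_distrib]
          refine Finset.sum_congr rfl fun a _ => ?_
          rw [Finset.mul_sum, ← Finset.sum_sub_distrib]
          refine Finset.sum_congr rfl fun x _ => ?_
          ring
        rw [s3]
        simp only [mul_one] at h1 ⊢
        linarith)
      (fun a ha x => by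
        rw [← hP4]
        exact l4 a ha x)
      hTS' hW3 hθW
    rw [← hs, ← hP] at h
    refine h.trans (le_of_eq ?_)
    refine Finset.sum_congr rfl fun a _ => Finset.sum_congr rfl fun x _ => ?_
    rw [hP4]
  -- the final sum
  obtain ⟨ρ, hρ⟩ : ∃ ρ : ℝ, ρ = 2 * Real.sqrt s + s := ⟨_, rfl⟩
  rw [← hρ] at k1 k2 k3 k4
  have hKP : ∑ a ∈ A, ∑ x, K a x = P := by
    rw [Finset.sum_congr rfl fun a _ => hK1 a, Finset.sum_const, nsmul_eq_mul, hP]
  have hth4 : ∑ a ∈ A, ∑ x, th * P4 a x ≤ th * P := by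
    calc ∑ a ∈ A, ∑ x, th * P4 a x ≤ ∑ a ∈ A, ∑ x : X, th :=
          Finset.sum_le_sum fun a ha => Finset.sum_le_sum fun x _ =>
            mul_le_of_le_one_right hth (l4 a ha x)
      _ = th * P := by
          rw [Finset.sum_const, Finset.sum_const, Finset.card_univ, nsmul_eq_mul, nsmul_eq_mul,
            hP]
          ring
  have hmain : ∑ a ∈ A, ∑ x, (K a x * P1 a x + K a x * P2 a x + K a x * P3 a x +
      K a x * de - K a x * P4 a x) ≤ ∑ a ∈ A, ∑ x : X, de / 4 := by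
    refine Finset.sum_le_sum fun a ha => Finset.sum_le_sum fun x _ => ?_
    have h1 : K a x * P1 a x + K a x * P2 a x + K a x * P3 a x + K a x * de - K a x * P4 a x =
        -(K a x * (P4 a x - de - (P1 a x + P2 a x + P3 a x))) := by ring
    rw [h1]
    refine (neg_le_abs _).trans ?_
    rw [abs_mul]
    calc |K a x| * |P4 a x - de - (P1 a x + P2 a x + P3 a x)| ≤ Mx * (de / (4 * Mx)) :=
          mul_le_mul (hKM a x) (hid a ha x) (abs_nonneg _) hMx0
      _ = de / 4 := by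
          have : Mx ≠ 0 := by linarith
          field_simp
  have hr : ∑ a ∈ A, ∑ x : X, de / 4 = P * (de / 4) := by
    rw [Finset.sum_const, Finset.sum_const, Finset.card_univ, nsmul_eq_mul, nsmul_eq_mul, hP]
    ring
  have hKde : ∑ a ∈ A, ∑ x, K a x * de = P * de := by
    rw [← hKP, Finset.sum_mul]
    refine Finset.sum_congr rfl fun a _ => ?_
    rw [Finset.sum_mul]
  simp only [Finset.sum_sub_distrib, Finset.sum_add_distrib] at hmain
  have k4' : ∑ a ∈ A, ∑ x, (th - K a x) * P4 a x =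
      ∑ a ∈ A, ∑ x, th * P4 a x - ∑ a ∈ A, ∑ x, K a x * P4 a x := by
    rw [← Finset.sum_sub_distrib]
    refine Finset.sum_congr rfl fun a _ => ?_
    rw [← Finset.sum_sub_distrib]
    refine Finset.sum_congr rfl fun x _ => ?_
    ring
  rw [k4'] at k4
  rw [hr, hKde] at hmain
  have hfin : P * (3 / 4 * de - th) ≤ P * (5 * (Mx * ρ)) := by
    have t1 : Mx * (P * ρ) = P * (Mx * ρ) := by ring
    have t2 : 2 * Mx * (P * ρ) = 2 * (P * (Mx * ρ)) := by ring
    rw [t1] at k1 k2 k3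
    rw [t2] at k4
    have t3 : P * (3 / 4 * de - th) = P * de - P * (de / 4) - th * P := by ring
    have t4 : P * (5 * (Mx * ρ)) = 5 * (P * (Mx * ρ)) := by ring
    rw [t3, t4]
    linarith
  have hfin2 : 3 / 4 * de - th ≤ 5 * (Mx * ρ) := le_of_mul_le_mul_left hfin hPpos
  have hfin3 : de ≤ 10 * (Mx * ρ) := by linarith
  have hgoal : (2 : ℝ) ^ 14 * Mx ^ 2 * kb * (S + 1) = 2 ^ 14 * Mx ^ 2 * s := by
    rw [hs]
    ring
  rw [hgoal]
  rcases le_or_gt s 1 with h | h
  · have h1 : s ≤ Real.sqrt s := by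
      have h2 := Real.sqrt_le_sqrt h
      rw [Real.sqrt_one] at h2
      calc s = Real.sqrt s * Real.sqrt s := (Real.mul_self_sqrt hs0).symm
        _ ≤ Real.sqrt s * 1 := mul_le_mul_of_nonneg_left h2 (Real.sqrt_nonneg _)
        _ = Real.sqrt s := mul_one _
    have h2 : ρ ≤ 3 * Real.sqrt s := by
      rw [hρ]
      linarith
    have h3 : de ≤ 30 * (Mx * Real.sqrt s) := by
      have : Mx * ρ ≤ Mx * (3 * Real.sqrt s) := mul_le_mul_of_nonneg_left h2 hMx0
      linarith
    have h4 : de ^ 2 ≤ (30 * (Mx * Real.sqrt s)) ^ 2 := pow_le_pow_left₀ hde.le h3 2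
    have h5 : (30 * (Mx * Real.sqrt s)) ^ 2 = 900 * (Mx ^ 2 * s) := by
      have h6 : Real.sqrt s ^ 2 = s := Real.sq_sqrt hs0
      calc (30 * (Mx * Real.sqrt s)) ^ 2 = 900 * (Mx ^ 2 * Real.sqrt s ^ 2) := by ring
        _ = _ := by rw [h6]
    have h7 : 0 ≤ Mx ^ 2 * s := by positivity
    rw [h5] at h4
    linarith
  · have h1 : 1 ≤ Mx ^ 2 := one_le_pow₀ hMx
    have h2 : 1 ≤ Mx ^ 2 * s := by nlinarith
    have h3 : de ^ 2 ≤ (4 / 3) ^ 2 := pow_le_pow_left₀ hde.le hde2 2
    have h4 : (2 : ℝ) ^ 14 * Mx ^ 2 * s = 2 ^ 14 * (Mx ^ 2 * s) := by ring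
    rw [h4]
    nlinarith

end Pool.Agent.H49.QO
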